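import Pool.Agent.H484.AL.Stm

/-!
# Project AL (helper484), task CROSS (helper261): no parallel vectors in conflicting cells
-/

set_option autoImplicit false

namespace Pool.Agent.H484.AL

open Finset

namespace CROSS

/-- `k B^x < 4 k' B^x'` -/
theorem comp {N k k' κ κ' u u' : ℕ} (h1 : κ * u ≤ N) (h2' : N ≤ 2 * κ' * u') (hk : k ≤ 2 * κ)
    (hk' : κ' < k') (hu' : 0 < u') : k * u < 4 * (k' * u') := by
  have a1 : k * u ≤ 2 * κ * u := Nat.mul_le_mul_right u hk
  have a2 : κ' * u' < k' * u' := Nat.mul_lt_mul_of_pos_right hk' hu'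
  nlinarith

/-- the exponents agree -/
theorem expo {B a b : ℕ} (hB : 64 ≤ B) (h : B ^ a < 8 * B ^ b) : a ≤ b := by
  by_contra hab
  have h1 : b + 1 ≤ a := by omega
  have h2 : B ^ (b + 1) ≤ B ^ a := Nat.pow_le_pow_right (by omega) h1
  rw [pow_succ] at h2
  have h3 : 0 < B ^ b := Nat.pow_pos (by omega)
  nlinarith

/-- the comparison of one coordinate -/
theorem coord {B k k' l l' x x' p p' : ℕ} (hB : 64 ≤ B)
    (hkl : k * l' = k' * l) (h1 : k * B ^ x < 4 * (k' * B ^ x')) (h2 : l' * B ^ p < 2 * (l * B ^ p')) :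
    x + p ≤ x' + p' := by
  refine expo hB ?_
  have h3 : (k * B ^ x) * (l' * B ^ p) < (4 * (k' * B ^ x')) * (2 * (l * B ^ p')) :=
    Nat.mul_lt_mul'' h1 h2
  have h4 : (k * B ^ x) * (l' * B ^ p) = (k' * l) * B ^ (x + p) := by
    rw [pow_add, ← hkl]; ring
  have h5 : (4 * (k' * B ^ x')) * (2 * (l * B ^ p')) = (k' * l) * (8 * B ^ (x' + p')) := by
    rw [pow_add]; ring
  rw [h4, h5] at h3
  exact Nat.lt_of_mul_lt_mul_left h3

theorem two {B l l' p p' : ℕ} (h1 : l < 2 * B ^ p) (h2 : B ^ p' ≤ l') (hB : 0 < B) :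
    l * B ^ p' < 2 * (l' * B ^ p) := by
  have h3 : 0 < B ^ p' := Nat.pow_pos hB
  have h4 : l * B ^ p' < 2 * B ^ p * B ^ p' := Nat.mul_lt_mul_of_pos_right h1 h3
  have h5 : 2 * B ^ p * B ^ p' ≤ 2 * B ^ p * l' := Nat.mul_le_mul_left _ h2
  calc l * B ^ p' < 2 * B ^ p * B ^ p' := h4
    _ ≤ 2 * B ^ p * l' := h5
    _ = _ := by ring

end CROSS

open CROSS in
theorem t_CROSS (hPARSTR : S_PARSTR) (hKAP : S_KAP) : S_CROSS := by
  intro e B g M a0 J α b hR t t' j j' ht ht' hj hj' hne halt l hl l' hl' hpar hE hE'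
  obtain ⟨k, hk1, hk2, hkd⟩ := hE
  obtain ⟨k', hk1', hk2', hkd'⟩ := hE'
  obtain ⟨c1, c2, -, c4⟩ := hKAP e B g M a0 J α hR t j ht hj
  obtain ⟨c1', c2', -, c4'⟩ := hKAP e B g M a0 J α hR t' j' ht' hj'
  have hB := hR.hB
  have hB0 : 0 < B := by omega
  have he := hR.he
  set κ := kap e (g * M) B t j with hκ
  set κ' := kap e (g * M) B t' j' with hκ'
  have hl1 : ∀ i, B ^ (j i) ≤ l i ∧ l i < 2 * B ^ (j i) := fun i => by
    have := (Finset.mem_filter.1 hl).1
    exact Finset.mem_Ico.1 (Fintype.mem_piFinset.1 this i)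
  have hl1' : ∀ i, B ^ (j' i) ≤ l' i ∧ l' i < 2 * B ^ (j' i) := fun i => by
    have := (Finset.mem_filter.1 hl').1
    exact Finset.mem_Ico.1 (Fintype.mem_piFinset.1 this i)
  have hj1 : ∀ i, j i < 5 * J := fun i => (Finset.mem_Ico.1 (Fintype.mem_piFinset.1 hj i)).2
  have hj1' : ∀ i, j' i < 5 * J := fun i => (Finset.mem_Ico.1 (Fintype.mem_piFinset.1 hj' i)).2
  have hpl : ∀ i, 1 ≤ l i := fun i => (Nat.one_le_pow _ _ hB0).trans (hl1 i).1
  have hpl' : ∀ i, 1 ≤ l' i := fun i => (Nat.one_le_pow _ _ hB0).trans (hl1' i).1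
  have hlk : ∀ i, l' i * k < M := fun i => by
    have h1 : l' i < 2 * B ^ (5 * J) := (hl1' i).2.trans_le
      (Nat.mul_le_mul_left 2 (Nat.pow_le_pow_right hB0 (hj1' i).le))
    calc l' i * k ≤ 2 * B ^ (5 * J) * (2 * κ) := Nat.mul_le_mul h1.le (by omega)
      _ = 4 * B ^ (5 * J) * κ := by ring
      _ < M := c4
  have hlk' : ∀ i, l i * k' < M := fun i => by
    have h1 : l i < 2 * B ^ (5 * J) := (hl1 i).2.trans_le
      (Nat.mul_le_mul_left 2 (Nat.pow_le_pow_right hB0 (hj1 i).le))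
    calc l i * k' ≤ 2 * B ^ (5 * J) * (2 * κ') := Nat.mul_le_mul h1.le (by omega)
      _ = 4 * B ^ (5 * J) * κ' := by ring
      _ < M := c4'
  obtain ⟨m, m', k'', l'', -, -, -, hmk, hmk', hml, hml', -⟩ :=
    hPARSTR e g M a0 k k' α b l l' (by omega) hR.hg hR.ha hpl hpl' (by omega) (by omega) hpar
      hkd hkd' hlk hlk'
  have hkl : ∀ i, k * l' i = k' * l i := fun i => by
    rw [hmk, hmk', hml i, hml' i]; ring
  have hcomp : k * B ^ (t + ∑ i, j i) < 4 * (k' * B ^ (t' + ∑ i, j' i)) :=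
    comp c1 c2' (by omega) hk1' (Nat.pow_pos hB0)
  have hcomp' : k' * B ^ (t' + ∑ i, j' i) < 4 * (k * B ^ (t + ∑ i, j i)) :=
    comp c1' c2 (by omega) hk1 (Nat.pow_pos hB0)
  have heq : ∀ i, (t + ∑ i, j i) + j i = (t' + ∑ i, j' i) + j' i := fun i => by
    refine le_antisymm ?_ ?_
    · exact coord hB (hkl i) hcomp (two (hl1' i).2 (hl1 i).1 hB0)
    · exact coord hB (hkl i).symm hcomp' (two (hl1 i).2 (hl1' i).1 hB0)
  have hfin : t + ∑ i, j i = t' + ∑ i, j' i → False := by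
    intro hx
    have h1 : ∀ i, j i = j' i := fun i => by
      have := heq i
      omega
    have h2 : j = j' := funext h1
    refine hne ⟨?_, h2⟩
    rw [h2] at hx
    omega
  rcases halt with h | ⟨i, h⟩ | h
  · have hs : ∑ i, ((t + ∑ i, j i) + j i) = ∑ i, ((t' + ∑ i, j' i) + j' i) :=
      Finset.sum_congr rfl fun i _ => heq i
    have key : ∀ (c : ℕ) (f : Fin e → ℕ), ∑ i, (c + f i) = e * c + ∑ i, f i := fun c f => by
      rw [Finset.sum_add_distrib, Finset.sum_const, Finset.card_univ, Fintype.card_fin,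
        smul_eq_mul]
    rw [key, key] at hs
    apply hfin
    set S := ∑ i, j i
    set S' := ∑ i, j' i
    have h3 : (e + 1) * (t + S) = (e + 1) * (t' + S') := by
      rw [add_mul, add_mul, one_mul, one_mul]
      omega
    exact Nat.eq_of_mul_eq_mul_left (by omega) h3
  · apply hfin
    have := heq i
    omega
  · exact hfin h

end Pool.Agent.H484.AL
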