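import Pool.Agent.H484.AL.Stm

/-!
# Project AL (helper484), task LAC (helper261): signed sums of lacunary integers
-/

set_option autoImplicit false

namespace Pool.Agent.H484.AL

open Finset

namespace LAC

theorem aux {ι : Type} (f : ι → ℤ) (R : ℤ) (hR : 3 ≤ R) (n : ℕ) : ∀ (J : Finset ι), J.card = n →
    (∀ j ∈ J, f j ≠ 0) →
    (∀ j ∈ J, ∀ j' ∈ J, j ≠ j' → R * |f j'| ≤ |f j| ∨ R * |f j| ≤ |f j'|) →
    ∀ M : ℤ, 0 ≤ M → (∀ j ∈ J, R * |f j| ≤ M) → (R - 1) * ∑ j ∈ J, |f j| ≤ M := by
  classical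
  induction n with
  | zero =>
    intro J hJ _ _ M hM _
    rw [Finset.card_eq_zero.1 hJ]
    simpa using hM
  | succ n ih =>
    intro J hJ h0 hs M hM hb
    have hne : J.Nonempty := by
      rw [← Finset.card_pos, hJ]
      omega
    obtain ⟨j0, hj0, hmax⟩ := Finset.exists_max_image J (fun j => |f j|) hne
    have hpos : 0 < |f j0| := abs_pos.2 (h0 j0 hj0)
    have hle : ∀ j ∈ J.erase j0, R * |f j| ≤ |f j0| := by
      intro j hj
      have hj' := Finset.mem_of_mem_erase hj
      have hne' := Finset.ne_of_mem_erase hj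
      rcases hs j0 hj0 j hj' hne'.symm with h | h
      · exact h
      · have := hmax j hj'
        nlinarith
    have h1 := ih (J.erase j0) (by rw [Finset.card_erase_of_mem hj0, hJ]; rfl)
      (fun j hj => h0 j (Finset.mem_of_mem_erase hj))
      (fun j hj j' hj' => hs j (Finset.mem_of_mem_erase hj) j' (Finset.mem_of_mem_erase hj'))
      |f j0| hpos.le hle
    rw [← Finset.add_sum_erase J (fun j => |f j|) hj0]
    have h2 := hb j0 hj0
    linarith

end LAC

theorem t_LAC : S_LAC := by
  classical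
  intro ι J f s R N hR hN h hs
  have hR' : (3 : ℤ) ≤ (R : ℤ) := by exact_mod_cast hR
  have hN' : (1 : ℤ) ≤ (N : ℤ) := by exact_mod_cast hN
  by_cases hne : J.Nonempty
  · obtain ⟨j0, hj0, hmax⟩ := Finset.exists_max_image J (fun j => |f j|) hne
    have hpos : 0 < |f j0| := abs_pos.2 (h j0 hj0).1
    have hle : ∀ j ∈ J.erase j0, (R : ℤ) * |f j| ≤ |f j0| := by
      intro j hj
      have hj' := Finset.mem_of_mem_erase hj
      have hne' := Finset.ne_of_mem_erase hj
      rcases hs j0 hj0 j hj' hne'.symm with h | h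
      · exact h
      · have := hmax j hj'
        nlinarith
    have h1 := LAC.aux f R hR' _ (J.erase j0) rfl
      (fun j hj => (h j (Finset.mem_of_mem_erase hj)).1)
      (fun j hj j' hj' => hs j (Finset.mem_of_mem_erase hj) j' (Finset.mem_of_mem_erase hj'))
      |f j0| hpos.le hle
    have hS0 : 0 ≤ ∑ j ∈ J.erase j0, |f j| := Finset.sum_nonneg fun j _ => abs_nonneg _
    have h2 : 2 * ∑ j ∈ J.erase j0, |f j| ≤ |f j0| := by nlinarith
    have h3 : |∑ i ∈ J.erase j0, s i * f i| ≤ ∑ j ∈ J.erase j0, |f j| := by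
      refine (Finset.abs_sum_le_sum_abs _ _).trans (Finset.sum_le_sum fun j hj => ?_)
      rw [abs_mul]
      rcases (h j (Finset.mem_of_mem_erase hj)).2.2 with h | h <;> rw [h] <;> simp
    have h4 : |s j0 * f j0| = |f j0| := by
      rw [abs_mul]
      rcases (h j0 hj0).2.2 with h | h <;> rw [h] <;> simp
    have h5 : ∑ i ∈ J, s i * f i = s j0 * f j0 + ∑ i ∈ J.erase j0, s i * f i :=
      (Finset.add_sum_erase J (fun i => s i * f i) hj0).symm
    rw [h5]
    set u := s j0 * f j0
    set w := ∑ i ∈ J.erase j0, s i * f i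
    have h6 : |u| ≤ |u + w| + |w| := by
      have := abs_sub (u + w) w
      rwa [add_sub_cancel_right] at this
    have h7 : |u + w| ≤ |u| + |w| := abs_add_le u w
    refine ⟨fun j hj => ?_, ?_⟩
    · have h8 := hmax j hj
      linarith
    · have h9 := (h j0 hj0).2.1
      linarith
  · rw [Finset.not_nonempty_iff_eq_empty] at hne
    subst hne
    refine ⟨fun j hj => absurd hj (Finset.notMem_empty j), ?_⟩
    rw [Finset.sum_empty, abs_zero]
    omega

end Pool.Agent.H484.AL
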